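import Pool.Agent.Lib.H91C.C
import Pool.Agent.Lib.H66N.N2

/-!
# H91C, file D: from two simple closed walks with chords to two cycles

`St2 cross v F LA LB`: `F` is plane, contains the closed walks `v :: LA` and `v :: LB`, and all its edges are inside
`v :: LA` or inside `v :: LB`. `st2_be`: if both walks have at least three vertices, then the edges between `LA` and
`LB` which miss `F` are the bridging edges of two cycles. `st2_acyN`: the degree form.
-/

set_option autoImplicit false
set_option linter.unusedSectionVars false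

namespace H91C

open H53P H30P Finset H98P H98Z H98M H66N

variable {V : Type*} [Fintype V] [DecidableEq V] {T : Table V} {cross : Sym2 V → Sym2 V → Prop}

/-- two simple closed walks with chords -/
structure St2 (cross : Sym2 V → Sym2 V → Prop) (v : V) (F : Finset (Sym2 V)) (LA LB : List V) :
    Prop where
  pl : Plane cross F
  nd : (v :: (LA ++ LB)).Nodup
  na : LA ≠ []
  nb : LB ≠ []
  ca : ∀ e ∈ ce (v :: LA), e ∈ F
  cb : ∀ e ∈ ce (v :: LB), e ∈ F
  no : ∀ a ∈ LA, ∀ b ∈ LB, s(a, b) ∉ F
  sup : F ⊆ LW (insert v (LA.toFinset ∪ LB.toFinset))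

theorem St2.swap {v : V} {F : Finset (Sym2 V)} {LA LB : List V} (h : St2 cross v F LA LB) :
    St2 cross v F LB LA where
  pl := h.pl
  nd := by
    have h1 := h.nd
    rw [List.nodup_cons, List.mem_append, List.nodup_append_comm] at h1
    rw [List.nodup_cons, List.mem_append, or_comm]
    exact h1
  na := h.nb
  nb := h.na
  ca := h.cb
  cb := h.ca
  no a ha b hb := by
    rw [Sym2.eq_swap]
    exact h.no b hb a ha
  sup := by
    have h1 := h.sup
    rw [union_comm] at h1
    exact h1

theorem we_getD (d : V) : ∀ (M : List V) (k : ℕ), k + 1 < M.length → s(M.getD k d, M.getD (k + 1) d) ∈ we M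
  | [], k, h => by simp at h
  | [_], k, h => by simp at h
  | a :: b :: l, 0, _ => by simp [we]
  | a :: b :: l, k + 1, h => by
    have h1 := we_getD d (b :: l) k (by simp only [List.length_cons] at h ⊢; omega)
    rw [we]
    refine List.mem_cons_of_mem _ ?_
    rw [List.getD_cons_succ, List.getD_cons_succ]
    exact h1

/-- the cyclic sequence of a list -/
def cs (v : V) (l : List V) : ℕ → V := fun k => (v :: l).getD (k % (l.length + 1)) v

theorem cs_zero (v : V) (l : List V) : cs v l 0 = v := by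
  unfold cs
  rw [Nat.zero_mod]
  rfl

theorem cs_mem (v : V) (l : List V) {k : ℕ} (h1 : 1 ≤ k) (h2 : k ≤ l.length) : cs v l k ∈ l := by
  unfold cs
  rw [Nat.mod_eq_of_lt (by omega)]
  obtain ⟨j, rfl⟩ : ∃ j, k = j + 1 := ⟨k - 1, by omega⟩
  rw [List.getD_cons_succ, List.getD_eq_getElem _ _ (by omega)]
  exact List.getElem_mem _

theorem cs_mem' (v : V) (l : List V) (k : ℕ) : cs v l k ∈ v :: l := by
  have h1 : k % (l.length + 1) < l.length + 1 := Nat.mod_lt _ (by omega)
  unfold cs
  rw [List.getD_eq_getElem _ _ (by rw [List.length_cons]; exact h1)]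
  exact List.getElem_mem _

theorem mem_cs (v : V) (l : List V) {x : V} (h : x ∈ l) : ∃ k, 1 ≤ k ∧ k ≤ l.length ∧ cs v l k = x := by
  obtain ⟨j, hj, rfl⟩ := List.getElem_of_mem h
  refine ⟨j + 1, by omega, by omega, ?_⟩
  unfold cs
  rw [Nat.mod_eq_of_lt (by omega), List.getD_cons_succ, List.getD_eq_getElem _ _ hj]

theorem mem_cs' (v : V) (l : List V) {x : V} (h : x ∈ v :: l) : ∃ k, k ≤ l.length ∧ cs v l k = x := by
  rcases List.mem_cons.1 h with h1 | h1
  · exact ⟨0, by omega, by rw [cs_zero, h1]⟩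
  · obtain ⟨k, _, h2, h3⟩ := mem_cs v l h1
    exact ⟨k, h2, h3⟩

theorem cs_per {v : V} {l : List V} (h : (v :: l).Nodup) (h2 : 2 ≤ l.length) : Per (cs v l) (l.length + 1) where
  three := by omega
  per k := by
    unfold cs
    rw [Nat.add_mod_right]
  inj i hi j hj hij := by
    unfold cs at hij
    rw [Nat.mod_eq_of_lt hi, Nat.mod_eq_of_lt hj, List.getD_eq_getElem _ _ (by rw [List.length_cons]; exact hi),
      List.getD_eq_getElem _ _ (by rw [List.length_cons]; exact hj)] at hij
    exact (List.Nodup.getElem_inj_iff h).1 hij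

theorem cs_edge (v : V) (l : List V) (k : ℕ) : s(cs v l k, cs v l (k + 1)) ∈ ce (v :: l) := by
  obtain ⟨r, hr⟩ : ∃ r, r = k % (l.length + 1) := ⟨_, rfl⟩
  have h1 : r < l.length + 1 := hr ▸ Nat.mod_lt _ (by omega)
  have e1 : cs v l k = (v :: (l ++ [v])).getD r v := by
    unfold cs
    rw [← hr, show v :: (l ++ [v]) = (v :: l) ++ [v] by rfl,
      List.getD_append _ _ _ _ (by rw [List.length_cons]; exact h1)]
  have e0 : (k + 1) % (l.length + 1) = (r + 1) % (l.length + 1) := by
    rw [hr]
    exact ((Nat.mod_modEq k (l.length + 1)).add_right 1).symm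
  have e2 : cs v l (k + 1) = (v :: (l ++ [v])).getD (r + 1) v := by
    unfold cs
    rw [e0, show v :: (l ++ [v]) = (v :: l) ++ [v] by rfl]
    rcases Nat.lt_or_ge (r + 1) (l.length + 1) with h3 | h3
    · rw [Nat.mod_eq_of_lt h3, List.getD_append _ _ _ _ (by rw [List.length_cons]; exact h3)]
    · rw [show r + 1 = l.length + 1 by omega, Nat.mod_self,
        List.getD_append_right _ _ _ _ (by rw [List.length_cons]), List.length_cons, Nat.sub_self]
      rfl
  rw [e1, e2]
  exact we_getD v _ r (by simp only [List.length_cons, List.length_append, List.length_nil]; omega)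

variable {v : V} {F : Finset (Sym2 V)} {LA LB : List V}

/-- the two cycles -/
theorem St2.two (hS : ∀ a b c d, cross s(a, b) s(c, d) ↔ T.X a b c d = true) (h : St2 cross v F LA LB)
    (hA : 2 ≤ LA.length) (hB : 2 ≤ LB.length) : Two T (cs v LA) LA.length (cs v LB) LB.length := by
  have hn := h.nd
  rw [List.nodup_cons, List.mem_append, not_or, List.nodup_append'] at hn
  obtain ⟨⟨n1, n2⟩, n3, n4, n5⟩ := hn
  have pl : ∀ {a b c d : V}, s(a, b) ∈ F → s(c, d) ∈ F → T.X a b c d = false := by
    intro a b c d h1 h2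
    have h3 := h.pl _ h1 _ h2
    rw [hS] at h3
    exact Bool.eq_false_of_not_eq_true h3
  have ea := fun k => h.ca _ (cs_edge v LA k)
  have eb := fun k => h.cb _ (cs_edge v LB k)
  refine ⟨⟨cs_per (List.nodup_cons.2 ⟨n1, n3⟩) hA, fun i j => pl (ea i) (ea j)⟩,
    ⟨cs_per (List.nodup_cons.2 ⟨n2, n4⟩) hB, fun i j => pl (eb i) (eb j)⟩, by rw [cs_zero, cs_zero],
    fun i j h1 h2 h3 => ?_, fun i j => pl (ea i) (eb j)⟩
  have h4 := cs_mem v LA h1 h2
  have h5 := cs_mem' v LB j
  rw [h3] at h4
  rcases List.mem_cons.1 h5 with h6 | h6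
  · rw [h6] at h4
    exact n1 h4
  · exact n5 h4 h6

/-- at least one of the two directions of `b` is the right one -/
theorem crn_or {a b : ℕ → V} {p m : ℕ} (h : Two T a p b m) : Crn T a b p m ∨ Crn T a (rv b (m + 1)) p m := by
  have hA := h.pa.toPer
  have hB := h.pb.toPer
  have p3 := hA.three
  have m3 := hB.three
  have h1 := (T.rot3 (u := a 0) (a := a 1) (b := a p) (c := b 1) (d := b m)
    (hA.ne_of (by omega) (by omega)).symm (hA.ne_of (by omega) (by omega)).symm
    (h.dis0 (by omega) (by omega) (by omega)).symm (h.dis0 (by omega) (by omega) (by omega)).symm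
    (hA.ne_of (by omega) (by omega)) (h.dis0 (by omega) (by omega) (by omega))
    (h.dis0 (by omega) (by omega) (by omega)) (h.dis0 (by omega) (by omega) (by omega))
    (h.dis0 (by omega) (by omega) (by omega)) (hB.ne_of (by omega) (by omega))).1
  have h2 := h.alt0
  change ((T.alt (a 0) (a 1) (a p) (b 1) (b m) ^^ T.alt (a 0) (a 1) (b 1) (a p) (b m)) ^^
    T.alt (a 0) (a 1) (b m) (a p) (b 1)) = true at h1
  rw [h2] at h1
  unfold Crn
  rw [rv_of (by omega), rv_of (by omega), show m + 1 - 1 = m by omega, show m + 1 - m = 1 by omega]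
  cases q1 : T.alt (a 0) (a 1) (b 1) (a p) (b m) with
  | false => exact Or.inl rfl
  | true =>
    cases q2 : T.alt (a 0) (a 1) (b m) (a p) (b 1) with
    | false => exact Or.inr rfl
    | true =>
      rw [q1, q2] at h1
      exact absurd h1 (by decide)

/-- the edges which miss `F` are the bridging edges of two cycles -/
theorem st2_be (hS : Sees T cross) (h : St2 cross v F LA LB) (hA : 2 ≤ LA.length) (hB : 2 ≤ LB.length) :
    ∃ (a b : ℕ → V) (p m : ℕ), Two T a p b m ∧ Crn T a b p m ∧
      Miss cross (br LA.toFinset LB.toFinset) F = BE cross a b p m := by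
  have hT := h.two hS.iff hA hB
  have pl : ∀ {a b c d : V}, s(a, b) ∈ F → s(c, d) ∈ F → T.X a b c d = false := by
    intro a b c d h1 h2
    have h3 := h.pl _ h1 _ h2
    rw [hS.iff] at h3
    exact Bool.eq_false_of_not_eq_true h3
  have ea := fun k => h.ca _ (cs_edge v LA k)
  have eb := fun k => h.cb _ (cs_edge v LB k)
  -- all edges of `F` are chords
  have hch : ∀ e ∈ F, Chd T (cs v LA) (cs v LB) LA.length LB.length e := by
    intro e he
    have h1 := h.sup he
    induction e with
    | _ x y =>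
      rw [mem_LW] at h1
      obtain ⟨h2, h3, _⟩ := h1
      have hbr : Brd T (cs v LA) (cs v LB) x y := ⟨fun k => pl he (ea k), fun k => pl he (eb k)⟩
      have cA : x ∈ v :: LA → y ∈ v :: LA → Chd T (cs v LA) (cs v LB) LA.length LB.length s(x, y) := by
        intro g1 g2
        obtain ⟨i, i1, i2⟩ := mem_cs' v LA g1
        obtain ⟨j, j1, j2⟩ := mem_cs' v LA g2
        refine Or.inl ⟨i, j, i1, j1, by rw [i2, j2], ?_⟩
        rw [i2, j2]
        exact hbr
      have cB : x ∈ v :: LB → y ∈ v :: LB → Chd T (cs v LA) (cs v LB) LA.length LB.length s(x, y) := by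
        intro g1 g2
        obtain ⟨i, i1, i2⟩ := mem_cs' v LB g1
        obtain ⟨j, j1, j2⟩ := mem_cs' v LB g2
        refine Or.inr ⟨i, j, i1, j1, by rw [i2, j2], ?_⟩
        rw [i2, j2]
        exact hbr.swap
      rw [mem_insert, mem_union, List.mem_toFinset, List.mem_toFinset] at h2 h3
      have q1 : ¬ (x ∈ LA ∧ y ∈ LB) := fun hh => h.no _ hh.1 _ hh.2 he
      have q2 : ¬ (y ∈ LA ∧ x ∈ LB) := fun hh => h.no _ hh.1 _ hh.2 (by rw [Sym2.eq_swap]; exact he)
      rw [List.mem_cons, List.mem_cons] at cA cB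
      rcases h2 with h2 | h2 | h2 <;> rcases h3 with h3 | h3 | h3
      · exact cA (Or.inl h2) (Or.inl h3)
      · exact cA (Or.inl h2) (Or.inr h3)
      · exact cB (Or.inl h2) (Or.inr h3)
      · exact cA (Or.inr h2) (Or.inl h3)
      · exact cA (Or.inr h2) (Or.inr h3)
      · exact absurd ⟨h2, h3⟩ q1
      · exact cB (Or.inr h2) (Or.inl h3)
      · exact absurd ⟨h3, h2⟩ q2
      · exact cB (Or.inr h2) (Or.inr h3)
  -- the right direction
  obtain ⟨b, hb1, hb2, hb3, hb4⟩ : ∃ b, Two T (cs v LA) LA.length b LB.length ∧ Crn T (cs v LA) b LA.length LB.length ∧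
      (∀ e ∈ F, Chd T (cs v LA) b LA.length LB.length e) ∧
      ∀ e, BS T (cs v LA) (cs v LB) LA.length LB.length e ↔ BS T (cs v LA) b LA.length LB.length e := by
    rcases crn_or hT with h1 | h1
    · exact ⟨_, hT, h1, hch, fun e => Iff.rfl⟩
    · exact ⟨_, hT.rvb, h1, fun e he => (hch e he).rvb hT, fun e => bs_rvb hT e⟩
  obtain ⟨a', b', p', m', h1, h2, h3⟩ := drop hS.iff _ _ _ _ _ F rfl hb1 hb2 hb3 h.pl
  refine ⟨a', b', p', m', h1, h2, ?_⟩
  ext e
  rw [mem_be h1 hS, mem_miss]
  refine Iff.trans ?_ (h3 e).symm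
  rw [← hb4]
  refine and_congr_left fun h4 => ?_
  rw [mem_br]
  constructor
  · rintro ⟨x, hx, y, hy, rfl⟩
    rw [List.mem_toFinset] at hx hy
    obtain ⟨i, i1, i2, rfl⟩ := mem_cs v LA hx
    obtain ⟨j, j1, j2, rfl⟩ := mem_cs v LB hy
    have g : ∀ {c d : V}, s(c, d) ∈ F → T.X (cs v LA i) (cs v LB j) c d = false := by
      intro c d hcd
      have h5 := h4 _ hcd
      rw [hS.iff] at h5
      exact Bool.eq_false_of_not_eq_true h5
    exact ⟨i, j, ⟨i1, i2, j1, j2, fun k => g (ea k), fun k => g (eb k)⟩, rfl⟩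
  · rintro ⟨i, j, hb, rfl⟩
    exact ⟨_, List.mem_toFinset.2 (cs_mem v LA hb.1 hb.2.1), _,
      List.mem_toFinset.2 (cs_mem v LB hb.2.2.1 hb.2.2.2.1), rfl⟩

/-- one vertex on one side -/
theorem acyN_one (hG : Geo cross) {a : V} (h : St2 cross v F [a] LB) (k : ℕ) :
    AcyN cross k (Miss cross (br ([a] : List V).toFinset LB.toFinset) F) := by
  have hn := h.nd
  rw [List.nodup_cons, List.mem_append, not_or, List.nodup_append'] at hn
  obtain ⟨⟨n1, n2⟩, n3, n4, n5⟩ := hn
  have hav : a ≠ v := fun h1 => n1 (by rw [h1]; exact List.mem_singleton_self v)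
  obtain ⟨b, hb⟩ := List.exists_mem_of_ne_nil _ h.nb
  have hab : ∀ b ∈ LB, b ≠ a := fun b hb h1 => n5 (List.mem_singleton_self a) (by rw [← h1]; exact hb)
  have hbv : ∀ b ∈ LB, b ≠ v := fun b hb h1 => n2 (by rw [← h1]; exact hb)
  obtain ⟨W, hW⟩ : ∃ W : Finset V, W = insert v (insert a LB.toFinset) := ⟨_, rfl⟩
  have mW : ∀ z, z ∈ W ↔ z = v ∨ z = a ∨ z ∈ LB := by
    intro z
    rw [hW, mem_insert, mem_insert, List.mem_toFinset]
  have h3 : 3 ≤ W.card := by
    have h4 : ({v, a, b} : Finset V) ⊆ W := by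
      intro z hz
      rw [mem_insert, mem_insert, mem_singleton] at hz
      rw [mW]
      rcases hz with rfl | rfl | rfl
      · exact Or.inl rfl
      · exact Or.inr (Or.inl rfl)
      · exact Or.inr (Or.inr hb)
    have h5 : ({v, a, b} : Finset V).card = 3 :=
      card_eq_three.2 ⟨v, a, b, hav.symm, (hbv b hb).symm, (hab b hb).symm, rfl⟩
    rw [← h5]
    exact card_le_card h4
  obtain ⟨z, hz, z', hz', hzz, f1, f2⟩ := hG.v2 W h3 a ((mW a).2 (Or.inr (Or.inl rfl))) (F.filter fun e => a ∉ e)
    (by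
      intro e he
      rw [mem_filter] at he
      have h4 := h.sup he.1
      obtain ⟨he1, he2⟩ := he
      induction e with
      | _ x y =>
        rw [Sym2.mem_iff, not_or] at he2
        rw [mem_LW, mem_insert, mem_insert, mem_union, mem_union, List.mem_toFinset, List.mem_toFinset,
          List.mem_toFinset, List.mem_toFinset, List.mem_singleton, List.mem_singleton] at h4
        rw [mem_LW, mem_erase, mem_erase, mW, mW]
        have g1 := he2.1
        have g2 := he2.2
        exact ⟨⟨Ne.symm g1, by tauto⟩, ⟨Ne.symm g2, by tauto⟩, h4.2.2⟩)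
    (fun e he f hf => h.pl e (mem_filter.1 he).1 f (mem_filter.1 hf).1)
  have key : ∀ z, z ∈ W.erase a → z ≠ v → (∀ f ∈ F.filter fun e => a ∉ e, ¬ cross s(a, z) f) →
      AcyN cross k (Miss cross (br ([a] : List V).toFinset LB.toFinset) F) := by
    intro z hz hzv hf
    rw [mem_erase, mW] at hz
    have hzB : z ∈ LB := by tauto
    refine acyN_apex hG.symm (d := s(a, z)) ?_ ?_ k
    · rw [mem_miss, mem_br]
      refine ⟨⟨a, by rw [List.mem_toFinset]; exact List.mem_singleton_self a, z, List.mem_toFinset.2 hzB, rfl⟩, ?_⟩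
      intro f hfF hc
      by_cases h4 : a ∈ f
      · obtain ⟨c, rfl⟩ := h4
        exact hG.adj _ _ _ hc
      · exact hf f (mem_filter.2 ⟨hfF, h4⟩) hc
    · intro e he hc
      rw [mem_miss, mem_br] at he
      obtain ⟨⟨x, hx, y, _, rfl⟩, _⟩ := he
      rw [List.mem_toFinset, List.mem_singleton] at hx
      rw [hx] at hc
      exact hG.adj _ _ _ hc
  by_cases h4 : z = v
  · refine key z' hz' (fun h5 => hzz (h4.trans h5.symm)) f2
  · exact key z hz h4 f1

theorem br_comm (A B : Finset V) : br A B = br B A := by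
  ext e
  rw [mem_br, mem_br]
  constructor <;> rintro ⟨x, hx, y, hy, rfl⟩ <;> exact ⟨y, hy, x, hx, Sym2.eq_swap⟩

/-- STEP (c): from two cycles to two simple closed walks with chords -/
theorem st2_acyN (hS : Sees T cross) (hG : Geo cross) {k : ℕ}
    (hTWO : ∀ (a b : ℕ → V) (p m : ℕ), Two T a p b m → Crn T a b p m → AcyN cross k (BE cross a b p m))
    (h : St2 cross v F LA LB) : AcyN cross k (Miss cross (br LA.toFinset LB.toFinset) F) := by
  have one : ∀ {LA LB : List V}, St2 cross v F LA LB → LA.length < 2 →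
      AcyN cross k (Miss cross (br LA.toFinset LB.toFinset) F) := by
    intro LA LB h hA
    match LA, h, hA with
    | [], h, _ => exact absurd rfl h.na
    | [a], h, _ => exact acyN_one hG h k
    | _ :: _ :: _, _, hA => simp only [List.length_cons] at hA; omega
  rcases Nat.lt_or_ge LA.length 2 with hA | hA
  · exact one h hA
  rcases Nat.lt_or_ge LB.length 2 with hB | hB
  · rw [br_comm]
    exact one h.swap hB
  obtain ⟨a, b, p, m, h1, h2, h3⟩ := st2_be hS h hA hB
  rw [h3]
  exact hTWO a b p m h1 h2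

end H91C
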