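import Pool.Agent.Lib.H30P.Sh3

/-!
# H91C, file C: further edges on the two cycles

`BS T a b p m e`: `e` is a bridging edge of the two cycles. `Chd T a b p m e`: `e` joins two points of the
same cycle and misses both cycles. THEOREM `drop`: for a plane set `Z` of such edges the bridging edges
which miss `Z` are exactly the bridging edges of two other cycles.
PROOF. Induction on `p + m` and `Z`. If an edge of `Z` crosses no bridging edge, it can be dropped.
Otherwise it is a chord in the face between the two cycles (`fl_of`, `corner`), so one cycle can be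
shortened (`CutA`); the edges of `Z` at the dropped vertices cross no remaining bridging edge.
-/

set_option autoImplicit false
set_option linter.unusedSectionVars false

namespace H91C

open H53P H30P Finset

variable {V : Type*} [DecidableEq V] {T : Table V} {a b : ℕ → V} {p m x y : ℕ}

/-- the bridging edges -/
def BS (T : Table V) (a b : ℕ → V) (p m : ℕ) (e : Sym2 V) : Prop :=
  ∃ i j, Br T a b p m i j ∧ e = s(a i, b j)

theorem BS.swap {e : Sym2 V} (h : BS T a b p m e) : BS T b a m p e := by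
  obtain ⟨i, j, h1, rfl⟩ := h
  exact ⟨j, i, h1.swap, Sym2.eq_swap⟩

theorem bs_swap (e : Sym2 V) : BS T a b p m e ↔ BS T b a m p e := ⟨BS.swap, BS.swap⟩

theorem BS.rvb (h : Two T a p b m) {e : Sym2 V} (he : BS T a b p m e) : BS T a (rv b (m + 1)) p m e := by
  obtain ⟨i, j, h1, rfl⟩ := he
  refine ⟨i, m + 1 - j, h1.rvb h, ?_⟩
  rw [rv_of (by have := h1.2.2.1; omega), show m + 1 - (m + 1 - j) = j by have := h1.2.2.2.1; omega]

theorem bs_rvb (h : Two T a p b m) (e : Sym2 V) : BS T a b p m e ↔ BS T a (rv b (m + 1)) p m e := by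
  refine ⟨BS.rvb h, fun h1 => ?_⟩
  have h2 := h1.rvb h.rvb
  rwa [rv_rv h.pb.toPer] at h2

theorem bs_rva (h : Two T a p b m) (e : Sym2 V) : BS T a b p m e ↔ BS T (rv a (p + 1)) b p m e := by
  rw [bs_swap, bs_rvb h.symm, bs_swap]

/-- `e` joins two points of the cycle `a` and misses both cycles -/
def ChA (T : Table V) (a b : ℕ → V) (p : ℕ) (e : Sym2 V) : Prop :=
  ∃ x y, x ≤ p ∧ y ≤ p ∧ e = s(a x, a y) ∧ Brd T a b (a x) (a y)

/-- `e` joins two points of the same cycle and misses both cycles -/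
def Chd (T : Table V) (a b : ℕ → V) (p m : ℕ) (e : Sym2 V) : Prop := ChA T a b p e ∨ ChA T b a m e

theorem Chd.swap {e : Sym2 V} (h : Chd T a b p m e) : Chd T b a m p e := Or.symm h

theorem rv_ex {c : ℕ → V} {n : ℕ} (h : Per c (n + 1)) {t : ℕ} (ht : t ≤ n) :
    ∃ s, s ≤ n ∧ c t = rv c (n + 1) s := by
  rcases Nat.eq_zero_or_pos t with h1 | h1
  · exact ⟨0, by omega, by rw [rv_zero h, h1]⟩
  · exact ⟨n + 1 - t, by omega, by rw [rv_of (by omega), show n + 1 - (n + 1 - t) = t by omega]⟩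

theorem ChA.rvb (h : Two T a p b m) {e : Sym2 V} (he : ChA T a b p e) : ChA T a (rv b (m + 1)) p e := by
  obtain ⟨s, t, h1, h2, h3, h4⟩ := he
  exact ⟨s, t, h1, h2, h3, h4.rvb h⟩

theorem ChA.rva (h : Two T a p b m) {e : Sym2 V} (he : ChA T a b p e) : ChA T (rv a (p + 1)) b p e := by
  obtain ⟨s, t, h1, h2, h3, h4⟩ := he
  obtain ⟨s', h5, h6⟩ := rv_ex h.pa.toPer h1
  obtain ⟨t', h7, h8⟩ := rv_ex h.pa.toPer h2
  refine ⟨s', t', h5, h7, by rw [h3, h6, h8], ?_⟩
  rw [← h6, ← h8]
  exact h4.rva h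

theorem Chd.rvb (h : Two T a p b m) {e : Sym2 V} (he : Chd T a b p m e) : Chd T a (rv b (m + 1)) p m e := by
  rcases he with h1 | h1
  · exact Or.inl (h1.rvb h)
  · exact Or.inr (h1.rva h.symm)

/-- both cycles reversed -/
theorem Two.rvr (h : Two T a p b m) : Two T (rv a (p + 1)) p (rv b (m + 1)) m := h.rvb.rva

theorem Chd.rvr (h : Two T a p b m) {e : Sym2 V} (he : Chd T a b p m e) :
    Chd T (rv a (p + 1)) (rv b (m + 1)) p m e := ((he.rvb h).swap.rvb h.rvb.symm).swap

theorem bs_rvr (h : Two T a p b m) (e : Sym2 V) :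
    BS T a b p m e ↔ BS T (rv a (p + 1)) (rv b (m + 1)) p m e := by
  rw [bs_rvb h, bs_rva h.rvb]

theorem Crn.rvr (h : Two T a p b m) (hc : Crn T a b p m) : Crn T (rv a (p + 1)) (rv b (m + 1)) p m := by
  have p3 := h.pa.three
  have m3 := h.pb.three
  unfold Crn at hc ⊢
  rw [rv_zero h.pa.toPer, rv_of (by omega), rv_of (by omega), rv_of (by omega), rv_of (by omega),
    show p + 1 - 1 = p by omega, show m + 1 - 1 = m by omega, show p + 1 - p = 1 by omega,
    show m + 1 - m = 1 by omega, T.as4]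
  exact hc

/-- a chord crossed by a bridging edge is in the face between the cycles -/
theorem fl_of (h : Two T a p b m) {i j : ℕ} (h1 : x + 2 ≤ y) (h2 : y ≤ p) (h3 : x = 0 → y + 1 ≤ p)
    (hu : Brd T a b (a x) (a y)) (hb : Br T a b p m i j) (hX : T.X (a x) (a y) (a i) (b j) = true) :
    pfl T a (p + 1) (b 1) y (a x) = 0 := by
  have hA := h.pa.toPer
  have m3 := h.pb.three
  have bne : ∀ t, 1 ≤ t → t ≤ m → ∀ k, a k ≠ b t := fun t t1 tm k => (h.symm.dis t k t1 tm).symm
  have h4 := sep_pg hA (w := b 1) (x := b j) (u := a i) (i := y) (v := a x) (bne 1 le_rfl (by omega))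
    (bne j hb.2.2.1 hb.2.2.2.1) (by rw [T.xs1, T.xs4, T.xs1]; exact hX) (unc_symm hb.2.2.2.2.1)
    (unc_symm hu.1)
    (by
      have := hA.ne_of (i := y + 1) (j := x + (p + 1)) (by omega) (by omega)
      rw [hA.per] at this
      exact this.symm)
    (by
      rw [show y + (p + 1) - 1 = y - 1 + (p + 1) by omega, hA.per]
      exact hA.ne_of (by omega) (by omega))
  have ob : ∀ t, 1 ≤ t → t ≤ m → Off (pe a (p + 1)) (b t) := fun t t1 tm => hA.off (bne t t1 tm)
  have h5 := arc_side (T := T) (c := b) hA.clo (ob 1 le_rfl (by omega)) hb.2.2.1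
    (fun k k1 k2 => ob k k1 (by have := hb.2.2.2.1; omega)) (fun k _ _ => pc_unc hA (h.brd_b k).1)
  rw [pc_self] at h5
  rw [← h4, ← h5]

/-- a chord at `v` in the face is at the lower or at the upper corner -/
theorem corner (h : Two T a p b m) (h1 : 2 ≤ y) (h2 : y + 1 ≤ p) (hu : Brd T a b (a 0) (a y))
    (hf : pfl T a (p + 1) (b 1) y (a 0) = 0) :
    T.alt (a 0) (a 1) (a y) (b 1) (a p) = false ∨ T.alt (a 0) (a p) (a y) (b m) (a 1) = false := by
  have hA := h.pa.toPer
  have hB := h.pb.toPer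
  have m3 := hB.three
  have bne : ∀ k, a k ≠ b 1 := fun k => (h.symm.dis 1 k le_rfl (by omega)).symm
  have n1 : a 0 ≠ a 1 := hA.ne_of (by omega) (by omega)
  have n2 : a 0 ≠ a p := hA.ne_of (by omega) (by omega)
  have n3 : a 0 ≠ a y := hA.ne_of (by omega) (by omega)
  have n4 : a 0 ≠ b 1 := bne 0
  have n5 : a 0 ≠ b m := h.dis0 (by omega) (by omega) le_rfl
  have n6 : a 1 ≠ a p := hA.ne_of (by omega) (by omega)
  have n7 : a 1 ≠ a y := hA.ne_of (by omega) (by omega)
  have n8 : a 1 ≠ b 1 := bne 1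
  have n9 : a 1 ≠ b m := h.dis0 (by omega) (by omega) le_rfl
  have n10 : a y ≠ a p := hA.ne_of (by omega) (by omega)
  have n11 : a y ≠ b 1 := bne y
  have n12 : a y ≠ b m := h.dis0 (by omega) (by omega) le_rfl
  have n13 : a p ≠ b 1 := bne p
  have n14 : a p ≠ b m := h.dis0 (by omega) (by omega) le_rfl
  have n15 : b 1 ≠ b m := hB.ne_of (by omega) (by omega)
  -- `a y` and `b 1` on the same side of `a`
  have f1 := pfl_two hA (w := b 1) bne (i := 0) (j := y) (by omega) (by omega) (T := T)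
  rw [pc_unc hA hu.1, hf, add_zero] at f1
  unfold pfl at f1
  have f2 := pc_unc hA (h.brd_b 0).1 (T := T)
  rw [h.v0] at f2
  change pc T (pe a (p + 1)) (a 0) (b 1) = 0 at f2
  rw [f2, zero_add, show 0 + 1 = 1 by rfl, show 0 + (p + 1) - 1 = p by omega] at f1
  -- `a y` and `a 1` on the same side of `b`
  have oa : ∀ k, 1 ≤ k → k ≤ y → Off (pe b (m + 1)) (a k) := by
    intro k k1 k2
    apply hB.off
    intro t ht
    exact h.dis k t k1 (by omega) ht.symm
  have f3 := arc_side (T := T) (c := a) hB.clo (oa y (by omega) le_rfl) (i := 1) (by omega) oa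
    (fun k _ _ => pc_unc hB (h.brd_a k).2)
  rw [pc_self] at f3
  have nb := hB.nb 0
  rw [show 0 + (m + 1) - 1 = m by omega, show 0 + 1 = 1 by rfl, h.v0] at nb
  have f4 := pc_one (T := T) (y := a 1) (z := a y) hB.clo nb n1 n3 n7 (oa 1 le_rfl (by omega))
    (oa y (by omega) le_rfl) hB.lpl
  have f5 := pc_unc hB (h.brd_a 0).2 (T := T)
  change pc T (pe b (m + 1)) (a 0) (a 1) = 0 at f5
  have f6 := pc_unc hB hu.2 (T := T)
  rw [f5, f3, pc_symm T _ (a y) (a 0), f6, add_zero, add_zero] at f4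
  -- the alternations
  cases q1 : T.alt (a 0) (a 1) (a y) (b 1) (a p) with
  | false => exact Or.inl rfl
  | true =>
    cases q2 : T.alt (a 0) (a p) (a y) (b m) (a 1) with
    | false => exact Or.inr rfl
    | true =>
      exfalso
      have z0 := h.alt0
      have r := (T.rot3 (u := a 0) (a := a 1) (b := a y) (c := b m) (d := a p) n1.symm n3.symm
        n5.symm n2.symm n7 n9 n6 n12 n10 n14.symm).1
      have e1 : al T (a 0) (a 1) (a y) (b 1) (a p) = 1 := by
        unfold al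
        rw [q1]
        rfl
      have e2 : al T (a 0) (a 1) (b m) (a y) (a p) = 1 := by
        unfold al
        rw [T.as4, T.as1, T.as2, q2]
        rfl
      have e3 : al T (a 0) (a 1) (a p) (b 1) (b m) = 0 := by
        unfold al
        rw [z0]
        rfl
      have e4 : al T (a 0) (a 1) (a y) (b 1) (b m) = 0 := by
        unfold al at f4 ⊢
        rw [T.as4, ← f4]
      have r2 := al_add (T := T) (u := a 0) (a := a 1) (b := a y) (y := b m) (z := a p) (w := b 1)
        n1 n3 n7 n5.symm n9.symm n12.symm n2.symm n6.symm n10.symm n4.symm n8.symm n11.symm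
      have r3 := al_add (T := T) (u := a 0) (a := a 1) (b := a p) (y := a y) (z := b m) (w := b 1)
        n1 n2 n6 n3.symm n7.symm n10 n5.symm n9.symm n14.symm n4.symm n8.symm n13.symm
      have r4 : al T (a 0) (a 1) (a y) (b m) (a p) + al T (a 0) (a 1) (b m) (a y) (a p) +
          al T (a 0) (a 1) (a p) (a y) (b m) = 1 := by
        unfold al
        rw [← z2_xor, ← z2_xor]
        change ((T.alt (a 0) (a 1) (a y) (b m) (a p) ^^ T.alt (a 0) (a 1) (b m) (a y) (a p)) ^^
          T.alt (a 0) (a 1) (a p) (a y) (b m)) = true at r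
        rw [r]
        rfl
      have s1 : al T (a 0) (a 1) (a y) (b m) (b 1) = 0 := by
        unfold al at e4 ⊢
        rw [T.as2]
        exact e4
      have s2 : al T (a 0) (a 1) (a y) (a p) (b 1) = 1 := by
        unfold al at e1 ⊢
        rw [T.as2]
        exact e1
      have s3 : al T (a 0) (a 1) (a p) (b m) (b 1) = 0 := by
        unfold al at e3 ⊢
        rw [T.as2]
        exact e3
      rw [s1, s2, zero_add] at r2
      rw [f1, s3, add_zero] at r3
      rw [← r2, e2, ← r3, add_zero] at r4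
      exact absurd r4 (by decide)

variable {cross : Sym2 V → Sym2 V → Prop}

/-- bridging edges of the shortened cycle -/
theorem step_cut (hS : ∀ a b c d, cross s(a, b) s(c, d) ↔ T.X a b c d = true) (hT : Two T a p b m)
    (hC : CutA T a b p x y) (e : Sym2 V) :
    BS T (cA a p x y) b (cp p x y) m e ↔ BS T a b p m e ∧ ¬ cross e s(a x, a y) := by
  have l1 := hC.lt
  have l2 := hC.le
  constructor
  · rintro ⟨i, j, hb, rfl⟩
    obtain ⟨h1, h2⟩ := hC.br_up hT hb
    refine ⟨⟨up x y i, j, h1, by rw [h2]⟩, ?_⟩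
    rw [hS]
    have h3 := hb.2.2.2.2.1 x
    have h4 := hC.hi (t := y) le_rfl l2
    rw [show y - (y - x - 1) = x + 1 by omega] at h4
    rw [h4, hC.lo le_rfl] at h3
    rw [h3]
    exact Bool.false_ne_true
  · rintro ⟨⟨i, j, hb, rfl⟩, hX⟩
    rw [hS] at hX
    have h1 := hC.br_dn hT hb (by rw [T.xs4]; exact Bool.eq_false_of_not_eq_true hX)
    exact ⟨dn x y i, j, h1.1, by rw [h1.2]⟩

/-- edges at dropped vertices -/
theorem drop_edge (hS : ∀ a b c d, cross s(a, b) s(c, d) ↔ T.X a b c d = true) (hT : Two T a p b m)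
    (hC : CutA T a b p x y) {z : ℕ} {v : V} (h1 : x < z) (h2 : z < y) (hu : Unc T (cA a p x y) (a z) v)
    {e : Sym2 V} (he : BS T (cA a p x y) b (cp p x y) m e) : ¬ cross e s(a z, v) := by
  obtain ⟨i, j, hb, rfl⟩ := he
  rw [hS]
  intro hX
  have hT' := hC.two hT
  have g : ∀ {r q : V}, Unc T (cA a p x y) r q → ∀ c d, s(c, d) ∈ pe (cA a p x y) (cp p x y + 1) →
      T.X r q c d = false := by
    intro r q hr c d hcd
    obtain ⟨k, hk⟩ := hT'.pa.toPer.mem_pe.1 hcd
    rw [Sym2.eq_iff] at hk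
    rcases hk with ⟨r1, r2⟩ | ⟨r1, r2⟩
    · rw [r1, r2]; exact hr k
    · rw [r1, r2, T.xs2]; exact hr k
  have h3 := sep_out (T := T) hT'.pa.toPer.clo (x := b j) (u := cA a p x y i) (y := a z) (v := v)
    (by rw [T.xs1]; exact hX) (g (unc_symm hb.2.2.2.2.1)) (g hu)
    (by
      apply hT'.pa.toPer.off
      intro t ht
      exact hT'.symm.dis j t hb.2.2.1 hb.2.2.2.1 ht.symm) (hC.offA hT h1 h2) hT'.pa.toPer.lpl
  rw [pc_symm, hC.side_b hT h1 h2 hb.2.2.1 hb.2.2.2.1] at h3
  exact absurd h3 (by decide)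

/-- the conclusion -/
def P (T : Table V) (cross : Sym2 V → Sym2 V → Prop) (a b : ℕ → V) (p m : ℕ) (Z : Finset (Sym2 V)) : Prop :=
  ∃ (a' b' : ℕ → V) (p' m' : ℕ), Two T a' p' b' m' ∧ Crn T a' b' p' m' ∧
    ∀ e, BS T a' b' p' m' e ↔ BS T a b p m e ∧ ∀ f ∈ Z, ¬ cross e f

theorem P.swap {Z : Finset (Sym2 V)} (h : P T cross b a m p Z) : P T cross a b p m Z := by
  obtain ⟨a', b', p', m', h1, h2, h3⟩ := h
  refine ⟨a', b', p', m', h1, h2, fun e => ?_⟩
  rw [h3, bs_swap]

theorem P.rvr {Z : Finset (Sym2 V)} (hT : Two T a p b m)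
    (h : P T cross (rv a (p + 1)) (rv b (m + 1)) p m Z) : P T cross a b p m Z := by
  obtain ⟨a', b', p', m', h1, h2, h3⟩ := h
  refine ⟨a', b', p', m', h1, h2, fun e => ?_⟩
  rw [h3, ← bs_rvr hT]

/-- the shortening step -/
theorem P.cut (hS : ∀ a b c d, cross s(a, b) s(c, d) ↔ T.X a b c d = true) {Z : Finset (Sym2 V)}
    (hT : Two T a p b m) (hC : CutA T a b p x y) (hZ : ∀ e ∈ Z, Chd T a b p m e)
    (hpl : ∀ e ∈ Z, ∀ f ∈ Z, ¬ cross e f) (hg : s(a x, a y) ∈ Z)
    (ih : ∀ Z' ⊆ Z, (∀ e ∈ Z', Chd T (cA a p x y) b (cp p x y) m e) → P T cross (cA a p x y) b (cp p x y) m Z') :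
    P T cross a b p m Z := by
  have l1 := hC.lt
  have l2 := hC.le
  obtain ⟨Z', hZ'⟩ : ∃ Z' : Finset (Sym2 V), ∀ e, e ∈ Z' ↔ e ∈ Z ∧ Chd T (cA a p x y) b (cp p x y) m e := by
    classical
    exact ⟨Z.filter fun e => Chd T (cA a p x y) b (cp p x y) m e, fun e => mem_filter⟩
  obtain ⟨a', b', p', m', h1, h2, h3⟩ := ih Z' (fun e he => ((hZ' e).1 he).1) (fun e he => ((hZ' e).1 he).2)
  refine ⟨a', b', p', m', h1, h2, fun e => ?_⟩
  rw [h3, step_cut hS hT hC]
  constructor
  · rintro ⟨⟨h4, h5⟩, h6⟩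
    refine ⟨h4, fun f hf => ?_⟩
    by_cases h7 : f ∈ Z'
    · exact h6 f h7
    · have hg' := hpl _ hg _ hf
      rcases hZ f hf with ⟨s, t, hs, ht, rfl, hb⟩ | ⟨s, t, hs, ht, rfl, hb⟩
      · rw [hS] at hg'
        have hu : Brd T (cA a p x y) b (a s) (a t) :=
          ⟨hC.unc hT.pa.toPer hb.1 (by rw [T.xs4]; exact Bool.eq_false_of_not_eq_true hg'), hb.2⟩
        have he : BS T (cA a p x y) b (cp p x y) m e := (step_cut hS hT hC e).2 ⟨h4, h5⟩
        have kept : ∀ s, s ≤ p → (s ≤ x ∨ y ≤ s) → ∃ s', s' ≤ cp p x y ∧ a s = cA a p x y s' := by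
          intro s hs hk
          have g4 : cp p x y = p - (y - x - 1) := rfl
          rcases hk with hk | hk
          · exact ⟨s, by omega, (hC.lo hk).symm⟩
          · exact ⟨s - (y - x - 1), by omega, (hC.hi hk hs).symm⟩
        by_cases k1 : s ≤ x ∨ y ≤ s
        · by_cases k2 : t ≤ x ∨ y ≤ t
          · exfalso
            apply h7
            refine (hZ' _).2 ⟨hf, Or.inl ?_⟩
            obtain ⟨s', hs', e1⟩ := kept s hs k1
            obtain ⟨t', ht', e2⟩ := kept t ht k2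
            refine ⟨s', t', hs', ht', by rw [e1, e2], ?_⟩
            rw [← e1, ← e2]
            exact hu
          · rw [Sym2.eq_swap]
            exact drop_edge hS hT hC (by omega) (by omega) (unc_symm hu.1) he
        · exact drop_edge hS hT hC (by omega) (by omega) hu.1 he
      · exfalso
        apply h7
        rw [hS] at hg'
        exact (hZ' _).2 ⟨hf, Or.inr ⟨s, t, hs, ht, rfl, hb.1,
          hC.unc hT.pa.toPer hb.2 (by rw [T.xs4]; exact Bool.eq_false_of_not_eq_true hg')⟩⟩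
  · rintro ⟨h4, h5⟩
    exact ⟨⟨h4, h5 _ hg⟩, fun f hf => h5 f ((hZ' f).1 hf).1⟩

/-- one chord of `a`, crossed by a bridging edge -/
theorem P.chord (hS : ∀ a b c d, cross s(a, b) s(c, d) ↔ T.X a b c d = true) {Z : Finset (Sym2 V)}
    (hT : Two T a p b m) (hc : Crn T a b p m) (hZ : ∀ e ∈ Z, Chd T a b p m e)
    (hpl : ∀ e ∈ Z, ∀ f ∈ Z, ¬ cross e f) {g e0 : Sym2 V} (hg : g ∈ Z) (hga : ChA T a b p g)
    (he0 : BS T a b p m e0) (hx0 : cross e0 g)
    (ih : ∀ (a' : ℕ → V) (b' : ℕ → V) (p' : ℕ), ∀ Z' ⊆ Z, p' < p → Two T a' p' b' m → Crn T a' b' p' m →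
      (∀ e ∈ Z', Chd T a' b' p' m e) → P T cross a' b' p' m Z') :
    P T cross a b p m Z := by
  have hA := hT.pa.toPer
  -- positions
  obtain ⟨x, y, l1, l2, hg', hu⟩ : ∃ x y, x < y ∧ y ≤ p ∧ g = s(a x, a y) ∧ Brd T a b (a x) (a y) := by
    obtain ⟨x, y, hx, hy, hg', hu⟩ := hga
    rcases Nat.lt_trichotomy x y with h1 | h1 | h1
    · exact ⟨x, y, h1, hy, hg', hu⟩
    · exfalso
      obtain ⟨i, j, hb, rfl⟩ := he0
      rw [hg', hS, h1] at hx0
      exact (T.ne _ _ _ _ hx0).2.1 rfl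
    · exact ⟨y, x, h1, hx, by rw [hg', Sym2.eq_swap], hu.symm⟩
  subst hg'
  obtain ⟨i, j, hb, rfl⟩ := he0
  rw [hS] at hx0
  have l3 : x + 2 ≤ y := by
    by_contra h1
    have h2 : y = x + 1 := by omega
    have h3 := hb.2.2.2.2.1 x
    rw [← h2, hx0] at h3
    exact absurd h3 (by decide)
  have l4 : x = 0 → y + 1 ≤ p := by
    intro h0
    by_contra h1
    have h2 : y = p := by omega
    have h3 := hb.2.2.2.2.1 p
    rw [hA.top, T.xs2, ← h0, ← h2, hx0] at h3
    exact absurd h3 (by decide)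
  have hf := fl_of hT l3 l2 l4 hu hb (by rw [T.xs4]; exact hx0)
  have fin : CutA T a b p x y → P T cross a b p m Z := fun hC =>
    P.cut hS hT hC hZ hpl hg fun Z' h1 h2 => ih _ _ _ Z' h1 hC.cplt (hC.two hT) (hC.crn hT hc) h2
  rcases Nat.eq_zero_or_pos x with h0 | h0
  · subst h0
    rcases corner hT l3 (l4 rfl) hu hf with h1 | h1
    · exact fin ⟨l3, l2, l4, hu, hf, fun _ => h1⟩
    · apply P.rvr hT
      have hT' := H91C.Two.rvr hT
      have m3 := hT.pb.three
      have e1 : rv a (p + 1) 0 = a 0 := rv_zero hA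
      have e2 : rv a (p + 1) (p + 1 - y) = a y := by
        rw [rv_of (by omega), show p + 1 - (p + 1 - y) = y by omega]
      have e3 : rv a (p + 1) 1 = a p := by rw [rv_of (by omega), show p + 1 - 1 = p by omega]
      have e4 : rv a (p + 1) p = a 1 := by rw [rv_of (by omega), show p + 1 - p = 1 by omega]
      have e5 : rv b (m + 1) 1 = b m := by rw [rv_of (by omega), show m + 1 - 1 = m by omega]
      have hu' : Brd T (rv a (p + 1)) (rv b (m + 1)) (rv a (p + 1) 0) (rv a (p + 1) (p + 1 - y)) := by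
        rw [e1, e2]
        exact (hu.rvb hT).rva hT.rvb
      obtain ⟨i', j', hb', e6⟩ := (bs_rvr hT s(a i, b j)).1 ⟨i, j, hb, rfl⟩
      have hx' : T.X (rv a (p + 1) 0) (rv a (p + 1) (p + 1 - y)) (rv a (p + 1) i') (rv b (m + 1) j') = true := by
        rw [← hS, ← e6, e1, e2, hS, T.xs4]
        exact hx0
      have hf' := fl_of hT' (x := 0) (y := p + 1 - y) (by have := l4 rfl; omega) (by omega) (by omega) hu' hb' hx'
      have hC : CutA T (rv a (p + 1)) (rv b (m + 1)) p 0 (p + 1 - y) :=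
        ⟨by have := l4 rfl; omega, by omega, by omega, hu', hf', fun _ => by rw [e1, e2, e3, e4, e5]; exact h1⟩
      refine P.cut hS hT' hC (fun e he => (hZ e he).rvr hT) hpl (by rw [e1, e2]; exact hg) fun Z' h1 h2 => ?_
      exact ih _ _ _ Z' h1 hC.cplt (hC.two hT') (hC.crn hT' (H91C.Crn.rvr hT hc)) h2
  · exact fin ⟨l3, l2, l4, hu, hf, fun h1 => by omega⟩

/-- THEOREM: further plane edges on the two cycles can be removed -/
theorem drop (hS : ∀ a b c d, cross s(a, b) s(c, d) ↔ T.X a b c d = true) :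
    ∀ (n : ℕ) (a b : ℕ → V) (p m : ℕ) (Z : Finset (Sym2 V)), p + m + Z.card = n → Two T a p b m →
      Crn T a b p m → (∀ e ∈ Z, Chd T a b p m e) → (∀ e ∈ Z, ∀ f ∈ Z, ¬ cross e f) →
      P T cross a b p m Z := by
  intro n
  induction n using Nat.strong_induction_on with
  | _ n ih =>
    intro a b p m Z hn hT hc hZ hpl
    by_cases h0 : ∃ g ∈ Z, ∀ e, BS T a b p m e → ¬ cross e g
    · obtain ⟨g, hg, hg2⟩ := h0
      obtain ⟨a', b', p', m', h1, h2, h3⟩ := ih (p + m + (Z.erase g).card)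
        (by have := card_erase_lt_of_mem hg; omega) a b p m (Z.erase g) rfl hT hc
        (fun e he => hZ e (mem_of_mem_erase he))
        (fun e he f hf => hpl e (mem_of_mem_erase he) f (mem_of_mem_erase hf))
      refine ⟨a', b', p', m', h1, h2, fun e => ?_⟩
      rw [h3]
      constructor
      · rintro ⟨h4, h5⟩
        refine ⟨h4, fun f hf => ?_⟩
        by_cases hfg : f = g
        · rw [hfg]; exact hg2 e h4
        · exact h5 f (mem_erase.2 ⟨hfg, hf⟩)
      · rintro ⟨h4, h5⟩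
        exact ⟨h4, fun f hf => h5 f (mem_of_mem_erase hf)⟩
    rcases Z.eq_empty_or_nonempty with hZ0 | ⟨g, hg⟩
    · subst hZ0
      exact ⟨a, b, p, m, hT, hc, fun e => ⟨fun h => ⟨h, fun f hf => absurd hf (notMem_empty f)⟩, fun h => h.1⟩⟩
    · push Not at h0
      obtain ⟨e0, he0, hx0⟩ := h0 g hg
      rcases hZ g hg with hga | hgb
      · refine P.chord hS hT hc hZ hpl hg hga he0 hx0 fun a' b' p' Z' h1 h2 h3 h4 h5 => ?_
        have := card_le_card h1
        exact ih (p' + m + Z'.card) (by omega) a' b' p' m Z' rfl h3 h4 h5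
          (fun e he f hf => hpl e (h1 he) f (h1 hf))
      · apply P.swap
        refine P.chord hS hT.symm (hc.swap hT) (fun e he => (hZ e he).swap) hpl hg hgb he0.swap hx0
          fun a' b' p' Z' h1 h2 h3 h4 h5 => ?_
        have := card_le_card h1
        exact ih (p' + p + Z'.card) (by omega) a' b' p' p Z' rfl h3 h4 h5
          (fun e he f hf => hpl e (h1 he) f (h1 hf))

end H91C
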